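import Pool.Agent.Q20.RAGraph.Main

/-!
For which graphs is there a finite nonabelian group with maximal gap that is still RA:
exactly for the graphs in which distinct vertices have distinct closed neighbourhoods.
-/

namespace Pool.Agent.Results.MP_8f3806_al.ExactlyTwinFree

open Q20.RAGraph

/-- **Answer to Q1.**  Let `Γ` be a finite graph on `n` vertices and let `d` be the list of the
`n` elementary divisors of its RA matrix, `k` of which are different from `1`.  A finite
nonabelian group `G` such that `Comm_b(G,Γ)` is isomorphic to the direct power
`[G,G] ^ (n - k)` and such that `Γ` is `G`-RA exists if and only if distinct vertices of `Γ`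
have distinct closed neighbourhoods. -/
theorem result {V : Type*} [Fintype V] [DecidableEq V] (Γ : SimpleGraph V)
    (d : Fin (Fintype.card V) → ℕ) (hd : IsElementaryDivisors (raMatrix Γ) d) :
    (∃ (G : Type) (_ : Group G) (_ : Finite G), (∃ a b : G, a * b ≠ b * a) ∧
      Nonempty (commB G Γ ≃* (Fin (Fintype.card V - Nat.card {i // d i ≠ 1}) → commutator G)) ∧
      IsRA G Γ) ↔
    ∀ u w, closedNbhd Γ u = closedNbhd Γ w → u = w :=
  main Γ d hd

end Pool.Agent.Results.MP_8f3806_al.ExactlyTwinFree
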